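import Pool.Agent.X14.CM6

set_option autoImplicit false

/-!
# The congruence of Jameson and Ono
-/

namespace Pool.Agent.Results.MP_8625e1_nt.JamesonOno

open Finset

/-- For every prime `p > 3`, writing `S(p) = ∑_{k=0}^{(p-1)/2} binom(2 k, k) ^ 3 (H_{2k} - H_k)` in
lowest terms, `p` divides the numerator and does not divide the denominator. Here `harmonic n` is
Mathlib's `n`-th harmonic number `1 + 1/2 + ... + 1/n`. -/
theorem result (p : ℕ) (hp : p.Prime) (h3 : 3 < p) :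
    (p : ℤ) ∣ (∑ k ∈ range ((p - 1) / 2 + 1), (((2 * k).choose k : ℕ) : ℚ) ^ 3 * (harmonic (2 * k) - harmonic k)).num ∧
    ¬ p ∣ (∑ k ∈ range ((p - 1) / 2 + 1), (((2 * k).choose k : ℕ) : ℚ) ^ 3 * (harmonic (2 * k) - harmonic k)).den := by
  have : Fact p.Prime := ⟨hp⟩
  obtain ⟨n, hn⟩ : ∃ n, p = 2 * n + 1 := by
    rcases hp.eq_two_or_odd' with h | h
    · omega
    · exact h
  have hn2 : (p - 1) / 2 = n := by omega
  rw [hn2]
  have h := Pool.Agent.X14.CM.SS_cong (p := p) h3 hn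
  have e : Pool.Agent.X14.CM.SS n = ∑ k ∈ range (n + 1), (((2 * k).choose k : ℕ) : ℚ) ^ 3 * (harmonic (2 * k) - harmonic k) := rfl
  rw [e] at h
  generalize (∑ k ∈ range (n + 1), (((2 * k).choose k : ℕ) : ℚ) ^ 3 * (harmonic (2 * k) - harmonic k)) = S at *
  obtain ⟨r, hr, hr'⟩ := h.exists_rep
  rw [pow_one] at hr'
  have hd0 : (S.den : ℚ) ≠ 0 := by exact_mod_cast S.den_ne_zero
  have hr0 : (r.den : ℚ) ≠ 0 := by exact_mod_cast r.den_ne_zero
  have e1 : (S.num : ℚ) * r.den = p * r.num * S.den := by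
    have a1 : S = (S.num : ℚ) / (S.den : ℚ) := (Rat.num_div_den S).symm
    have a2 : r = (r.num : ℚ) / (r.den : ℚ) := (Rat.num_div_den r).symm
    have a3 : (S.num : ℚ) / (S.den : ℚ) = p * ((r.num : ℚ) / (r.den : ℚ)) := by rw [← a1, ← a2]; exact hr'
    field_simp at a3
    linear_combination a3
  have e2 : S.num * r.den = p * r.num * S.den := by exact_mod_cast e1
  have hpr : ¬ (p : ℤ) ∣ (r.den : ℤ) := by
    intro hd
    have hd' : p ∣ r.den := by exact_mod_cast hd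
    have := Nat.dvd_gcd hd' (dvd_refl p)
    rw [Nat.Coprime] at hr
    rw [hr] at this
    exact hp.one_lt.ne' (Nat.dvd_one.1 this)
  have hpp : Prime (p : ℤ) := Nat.prime_iff_prime_int.1 hp
  have hnum : (p : ℤ) ∣ S.num := by
    have : (p : ℤ) ∣ S.num * r.den := ⟨r.num * S.den, by rw [e2]; ring⟩
    exact (hpp.dvd_or_dvd this).resolve_right hpr
  refine ⟨hnum, ?_⟩
  intro hd
  have h1 : p ∣ S.num.natAbs := Int.natCast_dvd.1 hnum
  have h2 := Nat.dvd_gcd h1 hd
  have h4 : Nat.gcd S.num.natAbs S.den = 1 := S.reduced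
  rw [h4] at h2
  exact hp.one_lt.ne' (Nat.dvd_one.1 h2)

end Pool.Agent.Results.MP_8625e1_nt.JamesonOno
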